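import Pool.Agent.Q120.NB.Stm3
import Pool.Agent.Q202.BD.Asm
import Pool.Agent.Q210.BD.Const

/-!
# Integration over the line (job NC-ZI, helper275)
-/

set_option autoImplicit false

namespace Pool.Agent.Q275.NC.ZI

open MeasureTheory Set Filter Topology
open Pool.Agent.Q286.BD (cl)
open Pool.Agent.Q202.BD.Asm
open scoped ENNReal NNReal

theorem rpow_comp' {x y p : ℝ} (hx : 0 < x) (hxy : x ≤ 2 * y) (hp : 0 < p) :
    y ^ (-p) ≤ 2 ^ p * x ^ (-p) := by
  have hy : 0 < y := by linarith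
  rw [Real.rpow_neg hy.le, Real.rpow_neg hx.le]
  have h1 : x ^ p ≤ 2 ^ p * y ^ p := by
    calc x ^ p ≤ (2 * y) ^ p := Real.rpow_le_rpow hx.le hxy hp.le
      _ = 2 ^ p * y ^ p := Real.mul_rpow (by norm_num) hy.le
  have hx' : 0 < x ^ p := Real.rpow_pos_of_pos hx _
  have hy' : 0 < y ^ p := Real.rpow_pos_of_pos hy _
  rw [← div_eq_mul_inv, inv_eq_one_div, div_le_div_iff₀ hy' hx']
  linarith

/-- summability over the zeros -/
theorem sum_Ga {G : Set ℝ} {K0 a : ℝ} (ha : 1 < a)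
    (hG : ∀ T : ℝ, (G ∩ Icc T (T + 1)).Finite ∧
      ((G ∩ Icc T (T + 1)).ncard : ℝ) ≤ K0 * Real.log (|T| + 2)) :
    Summable fun g : G => (1 + |(g : ℝ)|) ^ (-a) := by
  have hK0 : 0 ≤ K0 := by
    have h1 := (hG 0).2
    have h2 : (0 : ℝ) ≤ ((G ∩ Icc (0 : ℝ) (0 + 1)).ncard : ℝ) := Nat.cast_nonneg _
    rw [abs_zero, zero_add] at h1
    have h3 : 0 < Real.log (0 + 2) := Real.log_pos (by norm_num)
    rw [zero_add] at h2
    by_contra hcon
    have h4 := mul_neg_of_neg_of_pos (not_le.1 hcon) h3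
    linarith
  have hnn : ∀ g : ℝ, 0 ≤ (1 + |g|) ^ (-a) := fun g =>
    Real.rpow_nonneg (by positivity) _
  obtain ⟨δ, hδ⟩ : ∃ δ : ℝ, δ = (a - 1) / 2 := ⟨_, rfl⟩
  have hδ0 : 0 < δ := by rw [hδ]; linarith
  -- the comparison series
  have hs : Summable fun n : ℤ => (K0 * (2 ^ δ / δ) * 2 ^ a) * (1 + |(n : ℝ)|) ^ (-(a - δ)) := by
    refine Summable.mul_left _ ?_
    have h1 : Summable fun n : ℕ => (1 + |(n : ℝ)|) ^ (-(a - δ)) := by
      have h2 := (Real.summable_one_div_nat_add_rpow 1 (a - δ)).2 (by rw [hδ]; linarith)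
      refine h2.congr fun n => ?_
      have h3 : (0 : ℝ) ≤ n := Nat.cast_nonneg n
      rw [abs_of_nonneg h3, abs_of_nonneg (by linarith), Real.rpow_neg (by linarith), one_div,
        add_comm]
    refine summable_int_iff_summable_nat_and_neg.2 ⟨?_, ?_⟩
    · simpa using h1
    · simpa using h1
  refine summable_of_sum_le
    (c := ∑' n : ℤ, (K0 * (2 ^ δ / δ) * 2 ^ a) * (1 + |(n : ℝ)|) ^ (-(a - δ)))
    (fun g => hnn g) fun s => ?_
  have hterm : ∀ n : ℤ, ∑ g ∈ s.filter (fun g : G => ⌊(g : ℝ)⌋ = n),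
      (1 + |(g : ℝ)|) ^ (-a) ≤
      (K0 * (2 ^ δ / δ) * 2 ^ a) * (1 + |(n : ℝ)|) ^ (-(a - δ)) := by
    intro n
    have hn1 : 0 < 1 + |(n : ℝ)| := by positivity
    have h1 : ∀ g ∈ s.filter (fun g : G => ⌊(g : ℝ)⌋ = n),
        (1 + |(g : ℝ)|) ^ (-a) ≤ 2 ^ a * (1 + |(n : ℝ)|) ^ (-a) := by
      intro g hg
      have h2 := (Finset.mem_filter.1 hg).2
      refine rpow_comp' hn1 ?_ (by linarith)
      have h3 : |(n : ℝ)| ≤ |(g : ℝ)| + 1 := by
        have h4 := Int.floor_le (g : ℝ)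
        have h5 := Int.lt_floor_add_one (g : ℝ)
        rw [h2] at h4 h5
        have h6 : |(n : ℝ) - g| ≤ 1 := by
          rw [abs_le]
          constructor <;> linarith
        have h7 : |(n : ℝ)| ≤ |(n : ℝ) - g| + |(g : ℝ)| := by
          have := abs_add_le ((n : ℝ) - g) g
          rwa [sub_add_cancel] at this
        linarith
      have h8 := abs_nonneg (g : ℝ)
      linarith
    refine (Finset.sum_le_sum h1).trans ?_
    rw [Finset.sum_const, nsmul_eq_mul]
    have h9 : ((s.filter (fun g : G => ⌊(g : ℝ)⌋ = n)).card : ℝ) ≤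
        K0 * Real.log (|(n : ℝ)| + 2) := by
      refine le_trans ?_ (hG n).2
      have h10 : (s.filter (fun g : G => ⌊(g : ℝ)⌋ = n)).card ≤ (G ∩ Icc (n : ℝ) (n + 1)).ncard := by
        rw [← Set.ncard_coe_finset, ← Set.ncard_image_of_injective _ Subtype.val_injective]
        refine Set.ncard_le_ncard ?_ (hG n).1
        rintro x ⟨g, hg, rfl⟩
        have h2 := (Finset.mem_filter.1 (Finset.mem_coe.1 hg)).2
        have h4 := Int.floor_le (g : ℝ)
        have h5 := Int.lt_floor_add_one (g : ℝ)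
        rw [h2] at h4 h5
        exact ⟨g.2, h4, h5.le⟩
      exact_mod_cast h10
    have h11 : Real.log (|(n : ℝ)| + 2) ≤ 2 ^ δ / δ * (1 + |(n : ℝ)|) ^ δ := by
      have h12 : Real.log (|(n : ℝ)| + 2) ≤ (|(n : ℝ)| + 2) ^ δ / δ :=
        Real.log_le_rpow_div (by positivity) hδ0
      have h13 : (|(n : ℝ)| + 2) ^ δ ≤ 2 ^ δ * (1 + |(n : ℝ)|) ^ δ := by
        calc (|(n : ℝ)| + 2) ^ δ ≤ (2 * (1 + |(n : ℝ)|)) ^ δ := by
              refine Real.rpow_le_rpow (by positivity) ?_ hδ0.le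
              linarith [abs_nonneg (n : ℝ)]
          _ = 2 ^ δ * (1 + |(n : ℝ)|) ^ δ :=
              Real.mul_rpow (by norm_num) hn1.le
      calc Real.log (|(n : ℝ)| + 2) ≤ (|(n : ℝ)| + 2) ^ δ / δ := h12
        _ ≤ 2 ^ δ * (1 + |(n : ℝ)|) ^ δ / δ := div_le_div_of_nonneg_right h13 hδ0.le
        _ = _ := by ring
    have h14 : (1 + |(n : ℝ)|) ^ δ * (1 + |(n : ℝ)|) ^ (-a) =
        (1 + |(n : ℝ)|) ^ (-(a - δ)) := by
      rw [← Real.rpow_add hn1]
      congr 1
      ring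
    have h15 : 0 ≤ (1 + |(n : ℝ)|) ^ (-a) := hnn _
    have h16 : (0 : ℝ) ≤ 2 ^ a := by positivity
    calc ((s.filter (fun g : G => ⌊(g : ℝ)⌋ = n)).card : ℝ) * (2 ^ a * (1 + |(n : ℝ)|) ^ (-a))
        ≤ (K0 * (2 ^ δ / δ * (1 + |(n : ℝ)|) ^ δ)) * (2 ^ a * (1 + |(n : ℝ)|) ^ (-a)) := by
          refine mul_le_mul_of_nonneg_right ?_ (mul_nonneg h16 h15)
          exact h9.trans (mul_le_mul_of_nonneg_left h11 hK0)
      _ = (K0 * (2 ^ δ / δ) * 2 ^ a) * ((1 + |(n : ℝ)|) ^ δ * (1 + |(n : ℝ)|) ^ (-a)) := by ring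
      _ = _ := by rw [h14]
  calc ∑ g ∈ s, (1 + |(g : ℝ)|) ^ (-a)
      = ∑ n ∈ s.image (fun g : G => ⌊(g : ℝ)⌋), ∑ g ∈ s.filter (fun g : G => ⌊(g : ℝ)⌋ = n),
          (1 + |(g : ℝ)|) ^ (-a) := by
        symm
        exact Finset.sum_fiberwise_of_maps_to (fun g hg => Finset.mem_image_of_mem _ hg) _
    _ ≤ ∑ n ∈ s.image (fun g : G => ⌊(g : ℝ)⌋), (K0 * (2 ^ δ / δ) * 2 ^ a) *
          (1 + |(n : ℝ)|) ^ (-(a - δ)) :=
        Finset.sum_le_sum fun n _ => hterm n
    _ ≤ _ := hs.sum_le_tsum _ fun n _ =>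
        mul_nonneg (mul_nonneg (mul_nonneg hK0 (by positivity)) (by positivity))
          (Real.rpow_nonneg (by positivity) _)

/-- the integral of the cell majorant -/
theorem lint_cell {q L : ℝ} (hq : 1 < q) (hL : 0 < L) (g : ℝ) :
    ∫⁻ t : ℝ, ENNReal.ofReal ((1 + L * |t - g|) ^ (-q)) = ENNReal.ofReal (kap q / L) := by
  have h0 := kap_int hq
  have h1 : Integrable fun t : ℝ => (1 + |L * t|) ^ (-q) := h0.comp_mul_left' hL.ne'
  have h2 : Integrable fun t : ℝ => (1 + |L * (t - g)|) ^ (-q) := h1.comp_sub_right g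
  have e : (fun t : ℝ => (1 + L * |t - g|) ^ (-q)) = fun t : ℝ => (1 + |L * (t - g)|) ^ (-q) := by
    ext t
    rw [abs_mul, abs_of_pos hL]
  have h3 : Integrable fun t : ℝ => (1 + L * |t - g|) ^ (-q) := by
    rw [e]
    exact h2
  rw [← ofReal_integral_eq_lintegral_ofReal h3 (Eventually.of_forall fun t =>
    Real.rpow_nonneg (by positivity) _)]
  congr 1
  rw [e, integral_sub_right_eq_self (fun t : ℝ => (1 + |L * t|) ^ (-q)) g,
    Measure.integral_comp_mul_left (fun t : ℝ => (1 + |t|) ^ (-q)) L, kap, smul_eq_mul,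
    abs_of_pos (inv_pos.2 hL)]
  ring

theorem t_ZI : Pool.Agent.Q120.NB.J_ZI := by
  intro q κ hq hκ hqk
  obtain ⟨K0, hG⟩ := Pool.Agent.Q210.BD.cnt
  set G : Set ℝ := {g : ℝ | riemannZeta (cl g) = 0} with hGd
  obtain ⟨a, hadef⟩ : ∃ a : ℝ, a = q * (1 - κ) := ⟨_, rfl⟩
  have ha : 1 < a := by rw [hadef]; exact hqk
  have hfin : ∀ T : ℝ, (G ∩ Icc T (T + 1)).Finite := fun T => (hG T).1
  have hcount : G.Countable := countable_G hfin
  have : Countable G := hcount.to_subtype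
  have hsum := sum_Ga ha hG
  have hnn : ∀ g : ℝ, 0 ≤ (1 + |g|) ^ (-a) := fun g =>
    Real.rpow_nonneg (by positivity) _
  have hSn : 0 ≤ ∑' g : G, (1 + |(g : ℝ)|) ^ (-a) := tsum_nonneg fun g => hnn g
  have hkn : ∀ p : ℝ, 0 ≤ kap p := fun p => integral_nonneg fun x =>
    Real.rpow_nonneg (by positivity) _
  obtain ⟨C, hC⟩ : ∃ C : ℝ, C = kap a + 2 ^ a * kap q * ∑' g : G, (1 + |(g : ℝ)|) ^ (-a) + 1 :=
    ⟨_, rfl⟩
  have hC0 : 0 < C := by
    have h1 := hkn a
    have h2 := hkn q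
    have h3 : 0 ≤ 2 ^ a * kap q * ∑' g : G, (1 + |(g : ℝ)|) ^ (-a) := by positivity
    rw [hC]
    linarith
  refine ⟨C, hC0, ?_⟩
  intro L hL H hHm hH0 hH
  have hLp : 0 < L := by linarith
  have hq0 : 0 < q := by linarith
  have hexp : ∀ t : ℝ, ((1 + |t|) ^ (κ - 1)) ^ q = (1 + |t|) ^ (-a) := by
    intro t
    rw [← Real.rpow_mul (by positivity), hadef]
    congr 1
    ring
  -- the pointwise bound
  have hpt : ∀ t : ℝ, t ∉ G → ENNReal.ofReal (H t ^ q) ≤
      ENNReal.ofReal (1 / L * (1 + |t|) ^ (-a)) +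
      ∑' g : G, ENNReal.ofReal (2 ^ a * (1 + |(g : ℝ)|) ^ (-a)) *
        ENNReal.ofReal ((1 + L * |t - g|) ^ (-q)) := by
    intro t htG
    rcases cover hfin t with ht | ⟨g, hg, ht⟩
    · refine le_trans ?_ le_self_add
      refine ENNReal.ofReal_le_ofReal ?_
      have h1 := hH t 1 one_pos le_rfl (fun g hg => by
        rw [abs_sub_comm]
        exact ht g hg)
      have h2 : (0 : ℝ) < 1 + L * 1 := by linarith
      calc H t ^ q ≤ ((1 + |t|) ^ (κ - 1) / (1 + L * 1)) ^ q :=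
            Real.rpow_le_rpow (hH0 t) h1 hq0.le
        _ = (1 + |t|) ^ (-a) / (1 + L * 1) ^ q := by
            rw [Real.div_rpow (Real.rpow_nonneg (by positivity) _) h2.le, hexp]
        _ ≤ (1 + |t|) ^ (-a) / L := by
            refine div_le_div_of_nonneg_left (hnn t) hLp ?_
            calc L ≤ 1 + L * 1 := by linarith
              _ = (1 + L * 1) ^ (1 : ℝ) := (Real.rpow_one _).symm
              _ ≤ (1 + L * 1) ^ q := Real.rpow_le_rpow_of_exponent_le (by linarith) hq.le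
        _ = _ := by ring
    · refine le_trans ?_ le_add_self
      refine le_trans ?_ (ENNReal.le_tsum (⟨g, hg⟩ : G))
      show _ ≤ ENNReal.ofReal (2 ^ a * (1 + |g|) ^ (-a)) *
        ENNReal.ofReal ((1 + L * |t - g|) ^ (-q))
      have hne : t ≠ g := fun h => htG (h ▸ hg)
      have hd : 0 < |t - g| := abs_pos.2 (sub_ne_zero.2 hne)
      have h1 := hH t |t - g| hd ht.1 (fun g' hg' => by
        rw [abs_sub_comm g' t]
        exact ht.2 g' hg')
      have h2 : (0 : ℝ) < 1 + L * |t - g| := by positivity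
      rw [← ENNReal.ofReal_mul (mul_nonneg (by positivity) (hnn g))]
      refine ENNReal.ofReal_le_ofReal ?_
      have h3 : (1 + |t|) ^ (-a) ≤ 2 ^ a * (1 + |g|) ^ (-a) := by
        refine rpow_comp' (by positivity) ?_ (by linarith)
        have h3 : |g| ≤ |t - g| + |t| := by
          have := abs_sub_abs_le_abs_sub g t
          rw [abs_sub_comm g t] at this
          linarith
        have h4 := ht.1
        have h5 := abs_nonneg t
        linarith
      calc H t ^ q ≤ ((1 + |t|) ^ (κ - 1) / (1 + L * |t - g|)) ^ q :=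
            Real.rpow_le_rpow (hH0 t) h1 hq0.le
        _ = (1 + |t|) ^ (-a) * (1 + L * |t - g|) ^ (-q) := by
            rw [Real.div_rpow (Real.rpow_nonneg (by positivity) _) h2.le, hexp,
              Real.rpow_neg h2.le, div_eq_mul_inv]
        _ ≤ _ := mul_le_mul_of_nonneg_right h3 (Real.rpow_nonneg h2.le _)
  have hae : ∀ᵐ t : ℝ, t ∉ G := by
    rw [ae_iff]
    simp only [not_not]
    exact hcount.measure_zero _
  have hHn : ∀ t, 0 ≤ H t ^ q := fun t => Real.rpow_nonneg (hH0 t) _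
  have key : ∫⁻ t, ENNReal.ofReal (H t ^ q) ≤ ENNReal.ofReal (C / L) := by
    calc ∫⁻ t, ENNReal.ofReal (H t ^ q)
        ≤ ∫⁻ t, (ENNReal.ofReal (1 / L * (1 + |t|) ^ (-a)) +
          ∑' g : G, ENNReal.ofReal (2 ^ a * (1 + |(g : ℝ)|) ^ (-a)) *
            ENNReal.ofReal ((1 + L * |t - g|) ^ (-q))) := by
          refine lintegral_mono_ae ?_
          filter_upwards [hae] with t ht
          exact hpt t ht
      _ = (∫⁻ t : ℝ, ENNReal.ofReal (1 / L * (1 + |t|) ^ (-a))) +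
          ∑' g : G, (∫⁻ t : ℝ, ENNReal.ofReal (2 ^ a * (1 + |(g : ℝ)|) ^ (-a)) *
            ENNReal.ofReal ((1 + L * |t - g|) ^ (-q))) := by
          rw [lintegral_add_left (by fun_prop), lintegral_tsum]
          intro g
          fun_prop
      _ = ENNReal.ofReal (kap a / L) +
          ∑' g : G, ENNReal.ofReal (2 ^ a * (1 + |(g : ℝ)|) ^ (-a)) *
            ENNReal.ofReal (kap q / L) := by
          congr 1
          · rw [← ofReal_integral_eq_lintegral_ofReal ((kap_int ha).const_mul _)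
              (Eventually.of_forall fun t => mul_nonneg (by positivity) (hnn t)),
              integral_const_mul, ← kap]
            congr 1
            ring
          · refine tsum_congr fun g => ?_
            rw [lintegral_const_mul' _ _ ENNReal.ofReal_ne_top, lint_cell hq hLp]
      _ = ENNReal.ofReal (kap a / L) +
          ENNReal.ofReal (2 ^ a * ∑' g : G, (1 + |(g : ℝ)|) ^ (-a)) *
            ENNReal.ofReal (kap q / L) := by
          rw [ENNReal.tsum_mul_right, ← ENNReal.ofReal_tsum_of_nonneg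
            (f := fun g : G => 2 ^ a * (1 + |(g : ℝ)|) ^ (-a))
            (fun g => mul_nonneg (by positivity) (hnn _)) (hsum.mul_left _), tsum_mul_left]
      _ = ENNReal.ofReal (kap a / L + 2 ^ a * (∑' g : G, (1 + |(g : ℝ)|) ^ (-a)) *
            (kap q / L)) := by
          rw [← ENNReal.ofReal_mul (mul_nonneg (by positivity) hSn), ← ENNReal.ofReal_add
            (div_nonneg (hkn a) hLp.le)
            (mul_nonneg (mul_nonneg (by positivity) hSn) (div_nonneg (hkn q) hLp.le))]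
      _ ≤ ENNReal.ofReal (C / L) := by
          refine ENNReal.ofReal_le_ofReal ?_
          have e : C / L = kap a / L + 2 ^ a * (∑' g : G, (1 + |(g : ℝ)|) ^ (-a)) *
            (kap q / L) + 1 / L := by
            rw [hC]
            ring
          rw [e]
          have : 0 < 1 / L := by positivity
          linarith
  have hm : AEStronglyMeasurable (fun t => H t ^ q) volume :=
    (hHm.pow_const q).aestronglyMeasurable
  constructor
  · refine ⟨hm, ?_⟩
    rw [hasFiniteIntegral_iff_ofReal (Eventually.of_forall hHn)]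
    exact key.trans_lt ENNReal.ofReal_lt_top
  · rw [integral_eq_lintegral_of_nonneg_ae (Eventually.of_forall hHn) hm]
    exact ENNReal.toReal_le_of_le_ofReal (by positivity) key

end Pool.Agent.Q275.NC.ZI
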