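import Pool.Agent.Q120.NB.Stm3
import Pool.Agent.Helper390.CovarioA

/-!
# Hausdorff-Young for bounded integrable functions (job NC-HY, helper275)
-/

set_option autoImplicit false

namespace Pool.Agent.Q275.NC.HY

open MeasureTheory Set Complex FourierTransform Filter Topology
open scoped ENNReal NNReal

/-- the transform -/
noncomputable def F (v : ℝ → ℂ) (t : ℝ) : ℂ := ∫ x : ℝ, v x * cexp (-(t * x * I))

theorem nexp (t x : ℝ) : ‖cexp (-(t * x * I))‖ = 1 := by
  have : -((t : ℂ) * x * I) = ((-(t * x) : ℝ) : ℂ) * I := by push_cast; ring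
  rw [this, Complex.norm_exp_ofReal_mul_I]

theorem F_eq (v : ℝ → ℂ) (t : ℝ) : F v t = 𝓕 v (t / (2 * Real.pi)) := by
  rw [Real.fourier_real_eq_integral_exp_smul, F]
  refine integral_congr_ae (Eventually.of_forall fun x => ?_)
  have h : ((-2 * Real.pi * x * (t / (2 * Real.pi)) : ℝ) : ℂ) * I = -(t * x * I) := by
    have h1 : (-2 * Real.pi * x * (t / (2 * Real.pi)) : ℝ) = -(t * x) := by
      have := Real.pi_pos
      field_simp
    rw [h1]
    push_cast
    ring
  show v x * cexp (-(t * x * I)) = _ • v x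
  rw [h, smul_eq_mul, mul_comm]

theorem F_cont {v : ℝ → ℂ} (h1 : Integrable v) : Continuous (F v) := by
  have hcont : Continuous (𝓕 v) :=
    VectorFourier.fourierIntegral_continuous Real.continuous_fourierChar continuous_inner h1
  have : F v = fun t => 𝓕 v (t / (2 * Real.pi)) := funext (F_eq v)
  rw [this]
  exact hcont.comp (by fun_prop)

theorem F_plan {v : ℝ → ℂ} (h1 : Integrable v) (h2 : MemLp v 2) :
    Integrable (fun t => ‖F v t‖ ^ 2) ∧ ∫ t, ‖F v t‖ ^ 2 = 2 * Real.pi * ∫ x, ‖v x‖ ^ 2 := by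
  obtain ⟨hm, he⟩ := Pool.Agent.Helper390.Covario.plancherel h1 h2
  have hpi : (0 : ℝ) < 2 * Real.pi := by positivity
  have hi0 : Integrable (fun ξ => ‖𝓕 v ξ‖ ^ 2) := hm.integrable_norm_pow (by norm_num)
  have e : (fun t => ‖F v t‖ ^ 2) = fun t => (fun ξ => ‖𝓕 v ξ‖ ^ 2) (t / (2 * Real.pi)) := by
    ext t
    simp only [F_eq]
  constructor
  · rw [e]
    exact hi0.comp_div hpi.ne'
  · have : ∫ t, ‖F v t‖ ^ 2 = ∫ t, (fun ξ => ‖𝓕 v ξ‖ ^ 2) (t / (2 * Real.pi)) :=
      integral_congr_ae (Eventually.of_forall fun t => congrFun e t)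
    rw [this, Measure.integral_comp_div (fun ξ => ‖𝓕 v ξ‖ ^ 2) (2 * Real.pi), he,
      abs_of_pos hpi, smul_eq_mul]

theorem F_bd (v : ℝ → ℂ) (t : ℝ) : ‖F v t‖ ≤ ∫ x, ‖v x‖ := by
  refine (norm_integral_le_integral_norm _).trans (le_of_eq ?_)
  refine integral_congr_ae (Eventually.of_forall fun x => ?_)
  show ‖v x * cexp (-(t * x * I))‖ = ‖v x‖
  rw [norm_mul, nexp, mul_one]

theorem F_swap {v w : ℝ → ℂ} (hv : Integrable v) (hw : Integrable w) :
    ∫ t, F v t * w t = ∫ x, v x * F w x := by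
  have h0 : Integrable (fun z : ℝ × ℝ => w z.1 * v z.2) (volume.prod volume) := hw.mul_prod hv
  have h1 : Integrable (Function.uncurry fun (t x : ℝ) => v x * cexp (-(t * x * I)) * w t)
      (volume.prod volume) := by
    have h2 : (Function.uncurry fun (t x : ℝ) => v x * cexp (-(t * x * I)) * w t) =
        fun z : ℝ × ℝ => w z.1 * v z.2 * cexp (-((z.1 : ℂ) * z.2 * I)) := by
      ext z
      simp only [Function.uncurry]
      ring
    rw [h2]
    refine h0.norm.mono' (h0.aestronglyMeasurable.mul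
      (Continuous.aestronglyMeasurable (by fun_prop))) (Eventually.of_forall fun z => ?_)
    rw [norm_mul, nexp, mul_one]
  calc ∫ t, F v t * w t = ∫ t : ℝ, ∫ x : ℝ, v x * cexp (-(t * x * I)) * w t := by
        refine integral_congr_ae (Eventually.of_forall fun t => ?_)
        show F v t * w t = _
        rw [F, ← integral_mul_const]
    _ = ∫ x : ℝ, ∫ t : ℝ, v x * cexp (-(t * x * I)) * w t := integral_integral_swap h1
    _ = ∫ x, v x * F w x := by
        refine integral_congr_ae (Eventually.of_forall fun x => ?_)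
        show _ = v x * F w x
        rw [F, ← integral_const_mul]
        refine integral_congr_ae (Eventually.of_forall fun t => ?_)
        show v x * cexp (-(t * x * I)) * w t = v x * (w t * cexp (-(x * t * I)))
        rw [mul_comm (t : ℂ) x]
        ring

theorem F_conj (w : ℝ → ℂ) (x : ℝ) :
    (starRingEnd ℂ) (F w (-x)) = F (fun t => (starRingEnd ℂ) (w t)) x := by
  rw [F, F, ← integral_conj]
  refine integral_congr_ae (Eventually.of_forall fun t => ?_)
  show (starRingEnd ℂ) (w t * cexp (-(((-x : ℝ) : ℂ) * t * I))) = _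
  rw [map_mul, ← Complex.exp_conj]
  congr 2
  simp only [map_neg, map_mul, Complex.conj_ofReal, Complex.conj_I]
  push_cast
  ring

/-- splitting at the height `s` of the transform -/
theorem split {v : ℝ → ℂ} (h1 : Integrable v) (h2 : MemLp v 2) {s : ℝ} (hs : 0 < s) :
    ∃ w : ℝ → ℂ, Continuous w ∧ (∀ x, ‖w x‖ ≤ ∫ t in {t | s < ‖F v t‖}, ‖F v t‖) ∧
      Integrable (fun x => ‖v x - w x‖ ^ 2) ∧
      ∫ x, ‖v x - w x‖ ^ 2 ≤ ∫ t in {t | ‖F v t‖ ≤ s}, ‖F v t‖ ^ 2 := by
  obtain ⟨hGi, hGe⟩ := F_plan h1 h2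
  have hGc := F_cont h1
  set G := F v with hG
  have hS : MeasurableSet {t | s < ‖G t‖} := measurableSet_lt measurable_const hGc.norm.measurable
  have hSc : {t | s < ‖G t‖}ᶜ = {t | ‖G t‖ ≤ s} := by
    ext t
    simp
  have hpi : (0 : ℝ) < 2 * Real.pi := by positivity
  have hpi1 : (1 : ℝ) ≤ 2 * Real.pi := by linarith [Real.pi_gt_three]
  -- the truncated transform
  set G1 : ℝ → ℂ := {t | s < ‖G t‖}.indicator G with hG1
  have hG1m : AEStronglyMeasurable G1 volume := hGc.aestronglyMeasurable.indicator hS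
  have hG1b (t : ℝ) : ‖G1 t‖ ≤ ‖G t‖ ^ 2 / s := by
    rw [hG1]
    by_cases ht : s < ‖G t‖
    · rw [indicator_of_mem (show t ∈ {t | s < ‖G t‖} from ht), le_div_iff₀ hs, sq]
      exact mul_le_mul_of_nonneg_left ht.le (norm_nonneg _)
    · rw [indicator_of_notMem (show t ∉ {t | s < ‖G t‖} from ht), norm_zero]
      positivity
  have hG1i : Integrable G1 :=
    (hGi.div_const s).mono' hG1m (Eventually.of_forall hG1b)
  have hG1s (t : ℝ) : ‖G1 t‖ ^ 2 = {t | s < ‖G t‖}.indicator (fun t => ‖G t‖ ^ 2) t := by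
    rw [hG1]
    by_cases ht : s < ‖G t‖
    · rw [indicator_of_mem (show t ∈ {t | s < ‖G t‖} from ht),
        indicator_of_mem (show t ∈ {t | s < ‖G t‖} from ht)]
    · rw [indicator_of_notMem (show t ∉ {t | s < ‖G t‖} from ht),
        indicator_of_notMem (show t ∉ {t | s < ‖G t‖} from ht), norm_zero]
      norm_num
  have hG1n (t : ℝ) : ‖G1 t‖ = {t | s < ‖G t‖}.indicator (fun t => ‖G t‖) t := by
    rw [hG1, norm_indicator_eq_indicator_norm]
  have hG12 : MemLp G1 2 := by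
    rw [memLp_two_iff_integrable_sq_norm hG1m]
    have : (fun t => ‖G1 t‖ ^ 2) = {t | s < ‖G t‖}.indicator (fun t => ‖G t‖ ^ 2) := funext hG1s
    rw [this]
    exact hGi.indicator hS
  obtain ⟨hFi, hFe⟩ := F_plan hG1i hG12
  have hFc := F_cont hG1i
  refine ⟨fun x => ((1 / (2 * Real.pi) : ℝ) : ℂ) * F G1 (-x), by fun_prop, ?_, ?_⟩
  · intro x
    rw [norm_mul, Complex.norm_real, Real.norm_eq_abs, abs_of_pos (by positivity)]
    have h3 := F_bd G1 (-x)
    have h4 : ∫ t, ‖G1 t‖ = ∫ t in {t | s < ‖G t‖}, ‖G t‖ := by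
      rw [← integral_indicator hS]
      exact integral_congr_ae (Eventually.of_forall hG1n)
    rw [h4] at h3
    have h5 : 0 ≤ ‖F G1 (-x)‖ := norm_nonneg _
    have h6 : 1 / (2 * Real.pi) ≤ 1 := by
      rw [div_le_one hpi]
      exact hpi1
    calc 1 / (2 * Real.pi) * ‖F G1 (-x)‖ ≤ 1 * ‖F G1 (-x)‖ :=
          mul_le_mul_of_nonneg_right h6 h5
      _ ≤ _ := by rw [one_mul]; exact h3
  set w : ℝ → ℂ := fun x => ((1 / (2 * Real.pi) : ℝ) : ℂ) * F G1 (-x) with hw
  have hwc : Continuous w := by fun_prop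
  have hvi : Integrable (fun x => ‖v x‖ ^ 2) := h2.integrable_norm_pow (by norm_num)
  have hFi' : Integrable (fun x => ‖F G1 (-x)‖ ^ 2) := hFi.comp_neg
  have hwn (x : ℝ) : ‖w x‖ ^ 2 = (1 / (2 * Real.pi)) ^ 2 * ‖F G1 (-x)‖ ^ 2 := by
    rw [hw]
    simp only
    rw [norm_mul, mul_pow, Complex.norm_real, Real.norm_eq_abs, sq_abs]
  have hwi : Integrable (fun x => ‖w x‖ ^ 2) := by
    have : (fun x => ‖w x‖ ^ 2) = fun x => (1 / (2 * Real.pi)) ^ 2 * ‖F G1 (-x)‖ ^ 2 := funext hwn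
    rw [this]
    exact hFi'.const_mul _
  have hwe : ∫ x, ‖w x‖ ^ 2 = (1 / (2 * Real.pi)) * ∫ t, ‖G1 t‖ ^ 2 := by
    have e1 : ∫ x, ‖w x‖ ^ 2 = ∫ x, (1 / (2 * Real.pi)) ^ 2 * ‖F G1 (-x)‖ ^ 2 :=
      integral_congr_ae (Eventually.of_forall hwn)
    have e2 : ∫ x, ‖F G1 (-x)‖ ^ 2 = ∫ x, ‖F G1 x‖ ^ 2 :=
      integral_neg_eq_self (fun x => ‖F G1 x‖ ^ 2) volume
    rw [e1, integral_const_mul, e2, hFe]
    field_simp
  -- the mixed term
  have hm1 : Integrable (fun x => v x * (starRingEnd ℂ) (w x)) := by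
    have hb : ∀ x, ‖w x‖ ≤ (1 / (2 * Real.pi)) * ∫ t, ‖G1 t‖ := by
      intro x
      rw [hw]
      simp only
      rw [norm_mul, Complex.norm_real, Real.norm_eq_abs, abs_of_pos (by positivity)]
      exact mul_le_mul_of_nonneg_left (F_bd G1 (-x)) (by positivity)
    have hc : Continuous fun x => (starRingEnd ℂ) (w x) := Complex.continuous_conj.comp hwc
    refine (h1.norm.mul_const ((1 / (2 * Real.pi)) * ∫ t, ‖G1 t‖)).mono'
      (h1.aestronglyMeasurable.mul hc.aestronglyMeasurable) (Eventually.of_forall fun x => ?_)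
    rw [norm_mul, RCLike.norm_conj]
    exact mul_le_mul_of_nonneg_left (hb x) (norm_nonneg _)
  have hm2 : ∫ x, v x * (starRingEnd ℂ) (w x) =
      ((1 / (2 * Real.pi) * ∫ t, ‖G1 t‖ ^ 2 : ℝ) : ℂ) := by
    have e1 (x : ℝ) : v x * (starRingEnd ℂ) (w x) =
        ((1 / (2 * Real.pi) : ℝ) : ℂ) * (v x * F (fun t => (starRingEnd ℂ) (G1 t)) x) := by
      rw [hw]
      simp only
      rw [map_mul, Complex.conj_ofReal, F_conj]
      ring
    have hcG : Integrable (fun t => (starRingEnd ℂ) (G1 t)) := by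
      refine hG1i.norm.mono' (Complex.continuous_conj.comp_aestronglyMeasurable hG1m)
        (Eventually.of_forall fun t => ?_)
      rw [RCLike.norm_conj]
    rw [integral_congr_ae (Eventually.of_forall e1), integral_const_mul, ← F_swap h1 hcG]
    have e2 (t : ℝ) : F v t * (starRingEnd ℂ) (G1 t) = ((‖G1 t‖ ^ 2 : ℝ) : ℂ) := by
      rw [← hG]
      have h3 : G t * (starRingEnd ℂ) (G1 t) = G1 t * (starRingEnd ℂ) (G1 t) := by
        rw [hG1]
        by_cases ht : s < ‖G t‖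
        · rw [indicator_of_mem (show t ∈ {t | s < ‖G t‖} from ht)]
        · rw [indicator_of_notMem (show t ∉ {t | s < ‖G t‖} from ht)]
          simp
      rw [h3, Complex.mul_conj, Complex.normSq_eq_norm_sq]
    rw [integral_congr_ae (Eventually.of_forall e2), integral_complex_ofReal]
    push_cast
    ring
  have hpt (x : ℝ) : ‖v x - w x‖ ^ 2 =
      ‖v x‖ ^ 2 - 2 * (v x * (starRingEnd ℂ) (w x)).re + ‖w x‖ ^ 2 := by
    rw [← Complex.normSq_eq_norm_sq, ← Complex.normSq_eq_norm_sq, ← Complex.normSq_eq_norm_sq,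
      Complex.normSq_sub]
    ring
  have hmr : Integrable (fun x => (v x * (starRingEnd ℂ) (w x)).re) := hm1.re
  have hmre : ∫ x, (v x * (starRingEnd ℂ) (w x)).re = 1 / (2 * Real.pi) * ∫ t, ‖G1 t‖ ^ 2 := by
    have h3 := integral_re hm1
    rw [hm2] at h3
    simpa using h3
  have hall : Integrable (fun x => ‖v x‖ ^ 2 - 2 * (v x * (starRingEnd ℂ) (w x)).re +
      ‖w x‖ ^ 2) := (hvi.sub (hmr.const_mul 2)).add hwi
  have hfun : (fun x => ‖v x - w x‖ ^ 2) = fun x => ‖v x‖ ^ 2 -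
      2 * (v x * (starRingEnd ℂ) (w x)).re + ‖w x‖ ^ 2 := funext hpt
  constructor
  · rw [hfun]
    exact hall
  · have hA : ∫ x, (‖v x‖ ^ 2 - 2 * (v x * (starRingEnd ℂ) (w x)).re + ‖w x‖ ^ 2) =
        (∫ x, ‖v x‖ ^ 2) - 2 * (∫ x, (v x * (starRingEnd ℂ) (w x)).re) + ∫ x, ‖w x‖ ^ 2 := by
      have i1 := integral_add (hvi.sub (hmr.const_mul 2)) hwi
      have i2 := integral_sub hvi (hmr.const_mul 2)
      simp only [Pi.sub_apply] at i1
      rw [i1, i2, integral_const_mul]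
    rw [hfun, hA, hmre, hwe]
    have e3 : ∫ t, ‖G1 t‖ ^ 2 = ∫ t in {t | s < ‖G t‖}, ‖G t‖ ^ 2 := by
      rw [← integral_indicator hS]
      exact integral_congr_ae (Eventually.of_forall hG1s)
    have e4 : (∫ t in {t | s < ‖G t‖}, ‖G t‖ ^ 2) + (∫ t in {t | ‖G t‖ ≤ s}, ‖G t‖ ^ 2) =
        ∫ t, ‖G t‖ ^ 2 := by
      rw [← hSc]
      exact integral_add_compl hS hGi
    have e5 : ∫ x, ‖v x‖ ^ 2 = 1 / (2 * Real.pi) * ∫ t, ‖G t‖ ^ 2 := by
      rw [hGe]
      field_simp
    rw [e3, e5, ← e4]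
    clear hA hmre hm2 hwe hFe hGe e3 e5 e4
    have h7 : 0 ≤ ∫ t in {t | ‖G t‖ ≤ s}, ‖G t‖ ^ 2 := integral_nonneg fun t => by positivity
    have h6 : 1 / (2 * Real.pi) ≤ 1 := by
      rw [div_le_one hpi]
      exact hpi1
    nlinarith

/-- the integral of a power near zero -/
theorem lint_pow {a M : ℝ} (ha : -1 < a) (hM : 0 ≤ M) :
    ∫⁻ x in Ioc 0 M, ENNReal.ofReal (x ^ a) = ENNReal.ofReal (M ^ (a + 1) / (a + 1)) := by
  have h1 : IntegrableOn (fun x : ℝ => x ^ a) (Ioc 0 M) :=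
    (intervalIntegrable_iff_integrableOn_Ioc_of_le hM).1
      (intervalIntegral.intervalIntegrable_rpow' ha)
  rw [← ofReal_integral_eq_lintegral_ofReal h1]
  · rw [← intervalIntegral.integral_of_le hM, integral_rpow (Or.inl ha),
      Real.zero_rpow (by linarith), sub_zero]
  · filter_upwards [ae_restrict_mem measurableSet_Ioc] with x hx
    exact Real.rpow_nonneg hx.1.le _

/-- the measure of the level sets -/
theorem level {v : ℝ → ℂ} (h1 : Integrable v) (h2 : MemLp v 2) {p Q : ℝ} (hp : 2 < p)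
    (hQi : Integrable (fun t => ‖F v t‖ ^ (p / (p - 1))))
    (hQ : ∫ t, ‖F v t‖ ^ (p / (p - 1)) = Q) (hQ0 : 0 < Q) {l : ℝ} (hl : 0 < l) :
    volume {x | l < ‖v x‖} ≤ ENNReal.ofReal (4 / l ^ 2) *
      ∫⁻ t, {t | ‖F v t‖ ≤ (2 * Q / l) ^ (p - 1)}.indicator
        (fun t => ENNReal.ofReal (‖F v t‖ ^ 2)) t := by
  have hp1 : 0 < p - 1 := by linarith
  set s : ℝ := (2 * Q / l) ^ (p - 1) with hs
  have hs0 : 0 < s := Real.rpow_pos_of_pos (by positivity) _
  obtain ⟨w, hwc, hwb, hwi, hwe⟩ := split h1 h2 hs0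
  obtain ⟨hGi, -⟩ := F_plan h1 h2
  have hGc := F_cont h1
  have hS : MeasurableSet {t | s < ‖F v t‖} :=
    measurableSet_lt measurable_const hGc.norm.measurable
  have hS' : MeasurableSet {t | ‖F v t‖ ≤ s} :=
    measurableSet_le hGc.norm.measurable measurable_const
  -- the bounded part
  have hb : ∫ t in {t | s < ‖F v t‖}, ‖F v t‖ ≤ l / 2 := by
    have e1 : s ^ (1 - p / (p - 1)) * Q = l / 2 := by
      rw [hs, ← Real.rpow_mul (by positivity)]
      have : (p - 1) * (1 - p / (p - 1)) = -1 := by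
        field_simp
        ring
      rw [this, Real.rpow_neg_one]
      field_simp
    calc ∫ t in {t | s < ‖F v t‖}, ‖F v t‖
        ≤ ∫ t in {t | s < ‖F v t‖}, s ^ (1 - p / (p - 1)) * ‖F v t‖ ^ (p / (p - 1)) := by
          refine setIntegral_mono_on ?_ (hQi.integrableOn.const_mul _) hS fun t ht => ?_
          · refine ((hGi.integrableOn.div_const s)).mono' hGc.norm.aestronglyMeasurable ?_
            filter_upwards [ae_restrict_mem hS] with t ht
            rw [norm_norm, le_div_iff₀ hs0, sq]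
            exact mul_le_mul_of_nonneg_left (le_of_lt ht) (norm_nonneg _)
          · have ht' : s < ‖F v t‖ := ht
            have h0 : 0 < ‖F v t‖ := hs0.trans ht'
            have h3 : ‖F v t‖ ^ (1 - p / (p - 1)) ≤ s ^ (1 - p / (p - 1)) := by
              refine Real.rpow_le_rpow_of_nonpos hs0 ht'.le ?_
              rw [sub_nonpos, le_div_iff₀ hp1]
              linarith
            calc ‖F v t‖ = ‖F v t‖ ^ (1 - p / (p - 1)) * ‖F v t‖ ^ (p / (p - 1)) := by
                  rw [← Real.rpow_add h0, sub_add_cancel, Real.rpow_one]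
              _ ≤ _ := mul_le_mul_of_nonneg_right h3 (Real.rpow_nonneg h0.le _)
      _ = s ^ (1 - p / (p - 1)) * ∫ t in {t | s < ‖F v t‖}, ‖F v t‖ ^ (p / (p - 1)) :=
          integral_const_mul _ _
      _ ≤ s ^ (1 - p / (p - 1)) * Q := by
          refine mul_le_mul_of_nonneg_left ?_ (Real.rpow_nonneg hs0.le _)
          rw [← hQ]
          exact setIntegral_le_integral hQi (Eventually.of_forall fun t =>
            Real.rpow_nonneg (norm_nonneg _) _)
      _ = l / 2 := e1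
  have hsub : {x | l < ‖v x‖} ⊆ {x | ENNReal.ofReal ((l / 2) ^ 2) ≤
      ENNReal.ofReal (‖v x - w x‖ ^ 2)} := by
    intro x hx
    have hx' : l < ‖v x‖ := hx
    have h3 : ‖v x‖ ≤ ‖v x - w x‖ + ‖w x‖ := by
      have := norm_add_le (v x - w x) (w x)
      rwa [sub_add_cancel] at this
    have h4 := (hwb x).trans hb
    refine ENNReal.ofReal_le_ofReal (pow_le_pow_left₀ (by positivity) (by linarith) 2)
  have hmeas : AEMeasurable (fun x => ENNReal.ofReal (‖v x - w x‖ ^ 2)) volume :=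
    hwi.aestronglyMeasurable.aemeasurable.ennreal_ofReal
  have hmk := meas_ge_le_lintegral_div hmeas (ε := ENNReal.ofReal ((l / 2) ^ 2))
    (by rw [Ne, ENNReal.ofReal_eq_zero, not_le]; positivity) ENNReal.ofReal_ne_top
  refine (measure_mono hsub).trans (hmk.trans ?_)
  have h5 : ∫⁻ x, ENNReal.ofReal (‖v x - w x‖ ^ 2) ≤
      ∫⁻ t, {t | ‖F v t‖ ≤ s}.indicator (fun t => ENNReal.ofReal (‖F v t‖ ^ 2)) t := by
    rw [← ofReal_integral_eq_lintegral_ofReal hwi (Eventually.of_forall fun x => by positivity),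
      lintegral_indicator hS', ← ofReal_integral_eq_lintegral_ofReal hGi.integrableOn
        (Eventually.of_forall fun x => by positivity)]
    exact ENNReal.ofReal_le_ofReal hwe
  have h6 : ENNReal.ofReal (4 / l ^ 2) = (ENNReal.ofReal ((l / 2) ^ 2))⁻¹ := by
    rw [← ENNReal.ofReal_inv_of_pos (by positivity)]
    congr 1
    field_simp
    norm_num
  rw [h6, ENNReal.div_eq_inv_mul]
  gcongr

/-- the inner integral -/
theorem inner_le {p Q g : ℝ} (hp : 2 < p) (hQ0 : 0 < Q) (hg : 0 ≤ g) :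
    ∫⁻ l in Ioi (0 : ℝ), ENNReal.ofReal (4 * l ^ (p - 3)) *
      (if g ≤ (2 * Q / l) ^ (p - 1) then ENNReal.ofReal (g ^ 2) else 0) ≤
    ENNReal.ofReal (4 * (2 * Q) ^ (p - 2) / (p - 2)) * ENNReal.ofReal (g ^ (p / (p - 1))) := by
  have hp1 : 0 < p - 1 := by linarith
  have hp2 : 0 < p - 2 := by linarith
  rcases hg.eq_or_lt with h0 | h0
  · have : ∀ l : ℝ, ENNReal.ofReal (4 * l ^ (p - 3)) *
        (if g ≤ (2 * Q / l) ^ (p - 1) then ENNReal.ofReal (g ^ 2) else 0) = 0 := by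
      intro l
      rw [← h0]
      simp
    simp only [this, lintegral_zero]
    exact zero_le
  · obtain ⟨M, hM⟩ : ∃ M : ℝ, M = 2 * Q * g ^ (-(1 / (p - 1))) := ⟨_, rfl⟩
    have hM0 : 0 < M := by rw [hM]; positivity
    have h3 : ∀ l ∈ Ioi (0 : ℝ), ENNReal.ofReal (4 * l ^ (p - 3)) *
        (if g ≤ (2 * Q / l) ^ (p - 1) then ENNReal.ofReal (g ^ 2) else 0) ≤
        (Ioc 0 M).indicator
        (fun l => ENNReal.ofReal (4 * g ^ 2) * ENNReal.ofReal (l ^ (p - 3))) l := by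
      intro l hl
      have hl0 : 0 < l := hl
      by_cases h4 : g ≤ (2 * Q / l) ^ (p - 1)
      · rw [if_pos h4]
        have h5 : l ≤ M := by
          have h6 : g ^ (1 / (p - 1)) ≤ 2 * Q / l := by
            calc g ^ (1 / (p - 1)) ≤ ((2 * Q / l) ^ (p - 1)) ^ (1 / (p - 1)) :=
                  Real.rpow_le_rpow h0.le h4 (by positivity)
              _ = 2 * Q / l := by
                  rw [← Real.rpow_mul (by positivity), mul_one_div_cancel hp1.ne',
                    Real.rpow_one]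
          rw [hM, Real.rpow_neg h0.le, ← div_eq_mul_inv,
            le_div_iff₀ (Real.rpow_pos_of_pos h0 _)]
          rw [le_div_iff₀ hl0] at h6
          linarith
        rw [indicator_of_mem (show l ∈ Ioc 0 M from ⟨hl0, h5⟩),
          ← ENNReal.ofReal_mul (by positivity), ← ENNReal.ofReal_mul (by positivity)]
        refine ENNReal.ofReal_le_ofReal (le_of_eq ?_)
        ring
      · rw [if_neg h4, mul_zero]
        exact zero_le
    calc ∫⁻ l in Ioi (0 : ℝ), ENNReal.ofReal (4 * l ^ (p - 3)) *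
          (if g ≤ (2 * Q / l) ^ (p - 1) then ENNReal.ofReal (g ^ 2) else 0)
        ≤ ∫⁻ l in Ioi (0 : ℝ), (Ioc 0 M).indicator
          (fun l => ENNReal.ofReal (4 * g ^ 2) * ENNReal.ofReal (l ^ (p - 3))) l :=
          setLIntegral_mono_ae' measurableSet_Ioi (Eventually.of_forall h3)
      _ = ∫⁻ l in Ioc 0 M, ENNReal.ofReal (4 * g ^ 2) * ENNReal.ofReal (l ^ (p - 3)) := by
          rw [lintegral_indicator measurableSet_Ioc, Measure.restrict_restrict
            measurableSet_Ioc, inter_eq_left.2 (Ioc_subset_Ioi_self)]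
      _ = ENNReal.ofReal (4 * g ^ 2) * ENNReal.ofReal (M ^ (p - 3 + 1) / (p - 3 + 1)) := by
          have hm : Measurable fun l : ℝ => ENNReal.ofReal (l ^ (p - 3)) :=
            (measurable_id.pow_const (p - 3)).ennreal_ofReal
          rw [lintegral_const_mul _ hm, lint_pow (by linarith) hM0.le]
      _ = _ := by
          have e8 : p - 3 + 1 = p - 2 := by ring
          have e9 : g ^ 2 * (g ^ (-(1 / (p - 1)))) ^ (p - 2) = g ^ (p / (p - 1)) := by
            rw [← Real.rpow_natCast g 2, ← Real.rpow_mul h0.le, ← Real.rpow_add h0]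
            congr 1
            push_cast
            field_simp
            ring
          rw [← ENNReal.ofReal_mul (by positivity), ← ENNReal.ofReal_mul (by positivity), e8, hM,
            Real.mul_rpow (by positivity) (by positivity), ← e9]
          congr 1
          ring

/-- the case of a vanishing transform -/
theorem zero_case {v : ℝ → ℂ} (h1 : Integrable v) (h2 : MemLp v 2) {p : ℝ} (hp : 2 < p)
    (hQi : Integrable (fun t => ‖F v t‖ ^ (p / (p - 1))))
    (hQ : ∫ t, ‖F v t‖ ^ (p / (p - 1)) = 0) : ∫ x, ‖v x‖ ^ p = 0 := by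
  have hp1 : 0 < p - 1 := by linarith
  obtain ⟨hGi, hGe⟩ := F_plan h1 h2
  have e1 : (fun t => ‖F v t‖ ^ (p / (p - 1))) =ᵐ[volume] 0 :=
    (integral_eq_zero_iff_of_nonneg (fun t => Real.rpow_nonneg (norm_nonneg _) _) hQi).1 hQ
  have e2 : ∫ t, ‖F v t‖ ^ 2 = 0 := by
    refine integral_eq_zero_of_ae ?_
    filter_upwards [e1] with t ht
    have h3 : ‖F v t‖ ^ (p / (p - 1)) = 0 := ht
    have h4 : ‖F v t‖ = 0 := by
      rwa [Real.rpow_eq_zero (norm_nonneg _) (by positivity)] at h3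
    show ‖F v t‖ ^ 2 = 0
    rw [h4]
    norm_num
  rw [e2] at hGe
  have e3 : ∫ x, ‖v x‖ ^ 2 = 0 := by
    have := Real.pi_pos
    rcases mul_eq_zero.1 hGe.symm with h | h
    · linarith
    · exact h
  have e4 : (fun x => ‖v x‖ ^ 2) =ᵐ[volume] 0 :=
    (integral_eq_zero_iff_of_nonneg (fun x => by positivity)
      (h2.integrable_norm_pow (by norm_num))).1 e3
  refine integral_eq_zero_of_ae ?_
  filter_upwards [e4] with x hx
  have h3 : ‖v x‖ ^ 2 = 0 := hx
  show ‖v x‖ ^ p = 0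
  rw [pow_eq_zero_iff (by norm_num)] at h3
  rw [h3, Real.zero_rpow (by linarith)]

/-- the kernel of the double integral -/
noncomputable def K (p Q : ℝ) (g : ℝ → ℝ) (l t : ℝ) : ℝ≥0∞ := ENNReal.ofReal (4 * l ^ (p - 3)) *
  (if g t ≤ (2 * Q / l) ^ (p - 1) then ENNReal.ofReal (g t ^ 2) else 0)

theorem K_meas (p Q : ℝ) {g : ℝ → ℝ} (hg : Measurable g) :
    Measurable (Function.uncurry (K p Q g)) := by
  have hset : MeasurableSet {z : ℝ × ℝ | g z.2 ≤ (2 * Q / z.1) ^ (p - 1)} := by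
    refine measurableSet_le (hg.comp measurable_snd) ?_
    exact (measurable_const.div measurable_fst).pow_const _
  have m1 : Measurable fun z : ℝ × ℝ => ENNReal.ofReal (4 * z.1 ^ (p - 3)) :=
    ((measurable_fst.pow_const _).const_mul 4).ennreal_ofReal
  have m2 : Measurable fun z : ℝ × ℝ => if g z.2 ≤ (2 * Q / z.1) ^ (p - 1) then
      ENNReal.ofReal (g z.2 ^ 2) else 0 := by
    refine Measurable.ite hset ?_ measurable_const
    exact ((hg.comp measurable_snd).pow_const 2).ennreal_ofReal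
  exact m1.mul m2

theorem step {v : ℝ → ℂ} (h1 : Integrable v) (h2 : MemLp v 2) {p Q : ℝ} (hp : 2 < p)
    (hQi : Integrable (fun t => ‖F v t‖ ^ (p / (p - 1))))
    (hQ : ∫ t, ‖F v t‖ ^ (p / (p - 1)) = Q) (hQ0 : 0 < Q) {l : ℝ} (hl0 : 0 < l) :
    volume {x | l < ‖v x‖} * ENNReal.ofReal (l ^ (p - 1)) ≤
      ∫⁻ t, K p Q (fun t => ‖F v t‖) l t := by
  have hGc := F_cont h1
  have h3 := level h1 h2 hp hQi hQ hQ0 hl0
  have m3 : Measurable ({t | ‖F v t‖ ≤ (2 * Q / l) ^ (p - 1)}.indicator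
      (fun t => ENNReal.ofReal (‖F v t‖ ^ 2))) := by
    refine Measurable.indicator (hGc.norm.measurable.pow_const 2).ennreal_ofReal ?_
    exact measurableSet_le hGc.norm.measurable measurable_const
  have e6 : ∀ t, K p Q (fun t => ‖F v t‖) l t = ENNReal.ofReal (4 * l ^ (p - 3)) *
      {t | ‖F v t‖ ≤ (2 * Q / l) ^ (p - 1)}.indicator
        (fun t => ENNReal.ofReal (‖F v t‖ ^ 2)) t := by
    intro t
    rw [K]
    by_cases h : ‖F v t‖ ≤ (2 * Q / l) ^ (p - 1)
    · rw [if_pos h, indicator_of_mem (show t ∈ {t | ‖F v t‖ ≤ (2 * Q / l) ^ (p - 1)} from h)]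
    · rw [if_neg h,
        indicator_of_notMem (show t ∉ {t | ‖F v t‖ ≤ (2 * Q / l) ^ (p - 1)} from h)]
  rw [lintegral_congr e6, lintegral_const_mul _ m3]
  have e7 : l ^ (p - 1) = l ^ (p - 3) * l ^ 2 := by
    rw [← Real.rpow_natCast l 2, ← Real.rpow_add hl0]
    congr 1
    push_cast
    ring
  have e8 : ENNReal.ofReal (4 / l ^ 2) * ENNReal.ofReal (l ^ (p - 1)) =
      ENNReal.ofReal (4 * l ^ (p - 3)) := by
    rw [← ENNReal.ofReal_mul (by positivity), e7]
    congr 1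
    field_simp
  calc volume {x | l < ‖v x‖} * ENNReal.ofReal (l ^ (p - 1))
      ≤ (ENNReal.ofReal (4 / l ^ 2) * ∫⁻ t, {t | ‖F v t‖ ≤ (2 * Q / l) ^ (p - 1)}.indicator
        (fun t => ENNReal.ofReal (‖F v t‖ ^ 2)) t) * ENNReal.ofReal (l ^ (p - 1)) :=
        mul_le_mul' h3 le_rfl
    _ = (ENNReal.ofReal (4 / l ^ 2) * ENNReal.ofReal (l ^ (p - 1))) *
        ∫⁻ t, {t | ‖F v t‖ ≤ (2 * Q / l) ^ (p - 1)}.indicator
          (fun t => ENNReal.ofReal (‖F v t‖ ^ 2)) t := by ring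
    _ = _ := by rw [e8]

theorem key {v : ℝ → ℂ} (hvm : Measurable v) (h1 : Integrable v) (h2 : MemLp v 2) {p Q : ℝ}
    (hp : 2 < p) (hQi : Integrable (fun t => ‖F v t‖ ^ (p / (p - 1))))
    (hQ : ∫ t, ‖F v t‖ ^ (p / (p - 1)) = Q) (hQ0 : 0 < Q) :
    ∫⁻ x, ENNReal.ofReal (‖v x‖ ^ p) ≤
      ENNReal.ofReal (4 * p * (2 ^ (p - 2) / (p - 2)) * Q ^ (p - 1)) := by
  have hp1 : 0 < p - 1 := by linarith
  have hp2 : 0 < p - 2 := by linarith
  have hGc := F_cont h1
  rw [lintegral_rpow_eq_lintegral_meas_lt_mul volume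
    (Eventually.of_forall fun x => norm_nonneg (v x)) hvm.norm.aemeasurable (by linarith)]
  have hKm : Measurable (Function.uncurry (K p Q fun t => ‖F v t‖)) :=
    K_meas p Q hGc.norm.measurable
  have hstep : ∫⁻ l in Ioi (0 : ℝ), volume {x | l < ‖v x‖} * ENNReal.ofReal (l ^ (p - 1)) ≤
      ∫⁻ l in Ioi (0 : ℝ), ∫⁻ t, K p Q (fun t => ‖F v t‖) l t :=
    setLIntegral_mono_ae' measurableSet_Ioi (Eventually.of_forall fun l hl =>
      step h1 h2 hp hQi hQ hQ0 hl)
  have hswap : ∫⁻ l in Ioi (0 : ℝ), ∫⁻ t, K p Q (fun t => ‖F v t‖) l t =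
      ∫⁻ t, ∫⁻ l in Ioi (0 : ℝ), K p Q (fun t => ‖F v t‖) l t :=
    lintegral_lintegral_swap hKm.aemeasurable
  have hinner : ∀ t, ∫⁻ l in Ioi (0 : ℝ), K p Q (fun t => ‖F v t‖) l t ≤
      ENNReal.ofReal (4 * (2 * Q) ^ (p - 2) / (p - 2)) *
        ENNReal.ofReal (‖F v t‖ ^ (p / (p - 1))) := fun t => inner_le hp hQ0 (norm_nonneg _)
  have hfin : ∫⁻ t, ENNReal.ofReal (‖F v t‖ ^ (p / (p - 1))) = ENNReal.ofReal Q := by
    rw [← hQ, ofReal_integral_eq_lintegral_ofReal hQi
      (Eventually.of_forall fun t => Real.rpow_nonneg (norm_nonneg _) _)]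
  calc ENNReal.ofReal p * ∫⁻ l in Ioi (0 : ℝ), volume {x | l < ‖v x‖} *
        ENNReal.ofReal (l ^ (p - 1))
      ≤ ENNReal.ofReal p * ∫⁻ t, ENNReal.ofReal (4 * (2 * Q) ^ (p - 2) / (p - 2)) *
        ENNReal.ofReal (‖F v t‖ ^ (p / (p - 1))) := by
        refine mul_le_mul' le_rfl (hstep.trans ?_)
        rw [hswap]
        exact lintegral_mono hinner
    _ = ENNReal.ofReal p * (ENNReal.ofReal (4 * (2 * Q) ^ (p - 2) / (p - 2)) *
        ENNReal.ofReal Q) := by
        rw [lintegral_const_mul' _ _ ENNReal.ofReal_ne_top, hfin]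
    _ = _ := by
        have e10 : Q ^ (p - 1) = Q ^ (p - 2) * Q := by
          rw [← Real.rpow_add_one hQ0.ne']
          congr 1
          ring
        rw [← ENNReal.ofReal_mul (by positivity), ← ENNReal.ofReal_mul (by positivity), e10,
          Real.mul_rpow (by norm_num) hQ0.le]
        congr 1
        ring

theorem t_HY : Pool.Agent.Q120.NB.J_HY := by
  intro p hp
  have hp1 : 0 < p - 1 := by linarith
  have hp2 : 0 < p - 2 := by linarith
  refine ⟨4 * p * (2 ^ (p - 2) / (p - 2)), by positivity, ?_⟩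
  rintro v hvm h1 ⟨B, hB⟩ hQi
  have h2 : MemLp v 2 := by
    rw [memLp_two_iff_integrable_sq_norm h1.aestronglyMeasurable]
    refine (h1.norm.const_mul B).mono' (h1.aestronglyMeasurable.norm.pow 2)
      (Eventually.of_forall fun x => ?_)
    rw [Real.norm_eq_abs, abs_of_nonneg (by positivity), sq]
    exact mul_le_mul_of_nonneg_right (hB x) (norm_nonneg _)
  have hFe : ∀ t : ℝ, ∫ x : ℝ, v x * cexp (-(t * x * I)) = F v t := fun t => rfl
  simp only [hFe] at hQi ⊢
  obtain ⟨Q, hQ⟩ : ∃ Q : ℝ, ∫ t, ‖F v t‖ ^ (p / (p - 1)) = Q := ⟨_, rfl⟩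
  rw [hQ]
  have hQn : 0 ≤ Q := by
    rw [← hQ]
    exact integral_nonneg fun t => Real.rpow_nonneg (norm_nonneg _) _
  rcases hQn.eq_or_lt with hQ0 | hQ0
  · rw [zero_case h1 h2 hp hQi (hQ.trans hQ0.symm)]
    exact mul_nonneg (by positivity) (Real.rpow_nonneg hQn _)
  have hnn : ∀ x, 0 ≤ ‖v x‖ ^ p := fun x => Real.rpow_nonneg (norm_nonneg _) _
  rw [integral_eq_lintegral_of_nonneg_ae (Eventually.of_forall hnn)
    (hvm.norm.pow_const p).aestronglyMeasurable]
  exact ENNReal.toReal_le_of_le_ofReal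
    (mul_nonneg (by positivity) (Real.rpow_nonneg hQn _)) (key hvm h1 h2 hp hQi hQ hQ0)

end Pool.Agent.Q275.NC.HY
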